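import Mathlib

/-!
# The minimum number of degree-close pairs

Let `c = ⌈n / k⌉` and `t = n - k (c - 1)`.  For a threshold `σ` split the vertices with degree in
`[j k, j k + k)` into `L j` (degree `< j k + σ`) and `H j` (degree `≥ j k + σ`).  All pairs in
`L j ∪ H j` and all pairs between `H j` and `L (j + 1)` are close.  Counting edges between vertices
of very small and very large degree shows that for a suitable `σ` both `L 0` and `H (c - 1)` have at
most `t - 1` elements.  The rest is an inequality for integers: some two consecutive sets in the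
sequence `L 0, H 0 ∪ L 1, …, H (c - 2) ∪ L (c - 1), H (c - 1)` may be regarded as completely joined.
-/

set_option linter.unusedSectionVars false

namespace Pool.Agent.Results.MP_3eb7f1_co.DegreeClosePairs

open Finset

/-! ## Definitions used in the statement -/

/-- Distinct vertices whose degrees differ by less than `k`. -/
def closeGraph {V : Type*} (G : SimpleGraph V) (k : ℕ) : SimpleGraph V where
  Adj x y := x ≠ y ∧ |((G.neighborSet x).ncard : ℤ) - ((G.neighborSet y).ncard : ℤ)| < k
  symm := ⟨fun x y h => ⟨h.1.symm, by rw [abs_sub_comm]; exact h.2⟩⟩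
  loopless := ⟨fun _ h => h.1 rfl⟩

/-- The number of close pairs. -/
noncomputable def closePairs {V : Type*} (G : SimpleGraph V) (k : ℕ) : ℕ :=
  (closeGraph G k).edgeSet.ncard

/-- `⌈n / k⌉`. -/
def cc (n k : ℕ) : ℕ := (n + k - 1) / k

/-- The number `t`. -/
def tt (n k : ℕ) : ℕ := n - k * (cc n k - 1)

/-- The conjectured minimum. -/
def f0 (n k : ℕ) : ℕ :=
  (cc n k - 2) * Nat.choose k 2 + Nat.choose (k + 1) 2 + Nat.choose (tt n k - 1) 2

/-! ## The inequality for integers -/

/-- The sizes of the merged sets. -/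
def qq (q0 : ℤ) (L H : ℕ → ℤ) : ℕ → ℤ
  | 0 => q0
  | i + 1 => H i + L (i + 1)

theorem lemmaA : ∀ (c : ℕ) (L H : ℕ → ℤ) (q0 : ℤ), (∀ i, 0 ≤ L i) → (∀ i, 0 ≤ H i) → L 0 ≤ q0 →
    L (c + 1) = 0 → ∃ j, j < c + 1 ∧
      L 0 * (qq q0 L H j * qq q0 L H (j + 1)) ≤ q0 * ∑ i ∈ range (c + 1), L i * H i := by
  intro c
  induction c with
  | zero =>
    intro L H q0 hL hH h0 h1
    refine ⟨0, by omega, ?_⟩
    simp only [qq, zero_add, Finset.sum_range_one]
    rw [zero_add] at h1
    rw [h1]
    apply le_of_eq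
    ring
  | succ c ih =>
    intro L H q0 hL hH h0 h1
    obtain ⟨j, hj, hj'⟩ := ih (fun i => L (i + 1)) (fun i => H (i + 1)) (H 0 + L 1)
      (fun i => hL _) (fun i => hH _) (by have := hH 0; simpa using this) h1
    have hq : ∀ i, qq (H 0 + L 1) (fun i => L (i + 1)) (fun i => H (i + 1)) i =
        qq q0 L H (i + 1) := by
      intro i
      cases i with
      | zero => rfl
      | succ i => rfl
    rw [hq, hq] at hj'
    simp only [zero_add] at hj'
    obtain ⟨W, hW⟩ : ∃ W, W = ∑ i ∈ range (c + 1), L (i + 1) * H (i + 1) := ⟨_, rfl⟩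
    rw [← hW] at hj'
    have hWn : 0 ≤ W := by
      rw [hW]
      exact Finset.sum_nonneg (fun i _ => mul_nonneg (hL _) (hH _))
    obtain ⟨μ', hμ'⟩ : ∃ μ', μ' = qq q0 L H (j + 1) * qq q0 L H (j + 1 + 1) := ⟨_, rfl⟩
    rw [← hμ'] at hj'
    have hqn : ∀ i, 0 ≤ qq q0 L H i := by
      intro i
      cases i with
      | zero => exact (hL 0).trans h0
      | succ i => exact add_nonneg (hH _) (hL _)
    have hμn : 0 ≤ μ' := by
      rw [hμ']
      exact mul_nonneg (hqn _) (hqn _)
    have hsum : ∑ i ∈ range (c + 1 + 1), L i * H i = L 0 * H 0 + W := by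
      rw [Finset.sum_range_succ', hW, add_comm]
    rw [hsum]
    have key : ∀ μ : ℤ, 0 ≤ μ → μ ≤ μ' → μ ≤ q0 * (H 0 + L 1) → 0 < H 0 + L 1 →
        L 0 * μ ≤ q0 * (L 0 * H 0 + W) := by
      intro μ h2 h3 h4 h5
      have h6 : (H 0 + L 1) * (L 0 * μ) ≤ (H 0 + L 1) * (q0 * (L 0 * H 0 + W)) := by
        have e1 : L 0 * H 0 * μ ≤ L 0 * H 0 * (q0 * (H 0 + L 1)) :=
          mul_le_mul_of_nonneg_left h4 (mul_nonneg (hL 0) (hH 0))
        have e2 : q0 * (L 1 * μ') ≤ q0 * ((H 0 + L 1) * W) :=
          mul_le_mul_of_nonneg_left hj' ((hL 0).trans h0)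
        have e3 : L 1 * μ ≤ L 1 * μ' := mul_le_mul_of_nonneg_left h3 (hL 1)
        have e4 : q0 * (L 1 * μ) ≤ q0 * (L 1 * μ') :=
          mul_le_mul_of_nonneg_left e3 ((hL 0).trans h0)
        have e5 : L 0 * (L 1 * μ) ≤ q0 * (L 1 * μ) :=
          mul_le_mul_of_nonneg_right h0 (mul_nonneg (hL 1) h2)
        nlinarith
      exact le_of_mul_le_mul_left h6 h5
    rcases (hqn 1).eq_or_lt with h5 | h5
    · refine ⟨0, by omega, ?_⟩
      rw [zero_add, ← h5]
      simp only [mul_zero]
      exact mul_nonneg ((hL 0).trans h0) (add_nonneg (mul_nonneg (hL 0) (hH 0)) hWn)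
    · have h5' : 0 < H 0 + L 1 := h5
      rcases le_total μ' (q0 * (H 0 + L 1)) with h6 | h6
      · refine ⟨j + 1, by omega, ?_⟩
        rw [← hμ']
        exact key μ' hμn le_rfl h6 h5'
      · refine ⟨0, by omega, ?_⟩
        exact key (q0 * (H 0 + L 1)) (mul_nonneg ((hL 0).trans h0) h5'.le) h6 le_rfl h5'

theorem int_prod_nonneg (x : ℤ) : 0 ≤ x * (x - 1) := by
  rcases le_or_gt x 0 with h | h
  · nlinarith
  · have : 1 ≤ x := h
    nlinarith

theorem lemmaB (c : ℕ) (q : ℕ → ℤ) (k t : ℤ) (ht : t ≤ k)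
    (hsum : ∑ i ∈ range (c + 3), q i = k * (c + 1) + t) (h0 : q 0 ≤ t - 1)
    (h1 : q (c + 2) ≤ t - 1) (j : ℕ) (hj : j < c + 2) :
    (c + 1) * (k * (k - 1)) + 2 * k + (t - 1) * (t - 2) ≤
      ∑ i ∈ range (c + 3), q i * (q i - 1) + 2 * (q j * q (j + 1)) := by
  -- the small set
  obtain ⟨z, hz, hzq, hzj, hzj'⟩ : ∃ z, z < c + 3 ∧ q z ≤ t - 1 ∧ z ≠ j ∧ z ≠ j + 1 := by
    rcases Nat.eq_zero_or_pos j with hj0 | hj0
    · exact ⟨c + 2, by omega, h1, by omega, by omega⟩
    · exact ⟨0, by omega, h0, by omega, by omega⟩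
  have hG : ∀ i ∈ range (c + 3), 0 ≤ (q i - k) * (q i - k - 1) := fun i _ => int_prod_nonneg _
  have h2 : ({j, j + 1, z} : Finset ℕ) ⊆ range (c + 3) := by
    intro i hi
    simp only [Finset.mem_insert, Finset.mem_singleton] at hi
    rw [Finset.mem_range]
    omega
  have h3 := Finset.sum_le_sum_of_subset_of_nonneg h2 (fun i hi _ => hG i hi)
  rw [Finset.sum_insert (by simp only [Finset.mem_insert, Finset.mem_singleton]; omega),
    Finset.sum_insert (by simp only [Finset.mem_singleton]; omega), Finset.sum_singleton] at h3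
  have h4 : ∑ i ∈ range (c + 3), (q i - k) * (q i - k - 1) =
      ∑ i ∈ range (c + 3), q i * (q i - 1) - 2 * k * (k * (c + 1) + t) +
        (c + 3) * (k * (k + 1)) := by
    rw [← hsum, Finset.mul_sum, ← Finset.sum_sub_distrib]
    have : ((c : ℤ) + 3) * (k * (k + 1)) = ∑ _i ∈ range (c + 3), k * (k + 1) := by
      rw [Finset.sum_const, Finset.card_range, nsmul_eq_mul]
      push_cast
      ring
    rw [this, ← Finset.sum_add_distrib]
    apply Finset.sum_congr rfl
    intro i _
    ring
  have h5 := int_prod_nonneg (q j + q (j + 1) - k)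
  have h6 : (t - 1 - k) * (t - 2 - k) ≤ (q z - k) * (q z - k - 1) := by nlinarith
  nlinarith

/-- The inequality for integers. -/
theorem numeric (c : ℕ) (L H : ℕ → ℤ) (k t : ℤ) (hL : ∀ i, 0 ≤ L i) (hH : ∀ i, 0 ≤ H i)
    (ht : t ≤ k) (hc : L (c + 2) = 0) (hsum : ∑ i ∈ range (c + 2), (L i + H i) = k * (c + 1) + t)
    (h0 : L 0 ≤ t - 1) (h1 : H (c + 1) ≤ t - 1) :
    (c + 1) * (k * (k - 1)) + 2 * k + (t - 1) * (t - 2) ≤
      ∑ i ∈ range (c + 2), (L i + H i) * (L i + H i - 1) +
        2 * ∑ i ∈ range (c + 2), H i * L (i + 1) := by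
  obtain ⟨j, hj, hj'⟩ := lemmaA (c + 1) L H (L 0) hL hH le_rfl hc
  obtain ⟨q, hq⟩ : ∃ q, q = qq (L 0) L H := ⟨_, rfl⟩
  rw [← hq] at hj'
  have hq0 : q 0 = L 0 := by rw [hq]; rfl
  have hqs : ∀ i, q (i + 1) = H i + L (i + 1) := by intro i; rw [hq]; rfl
  have hqn : ∀ i, 0 ≤ q i := by
    intro i
    cases i with
    | zero => rw [hq0]; exact hL 0
    | succ i => rw [hqs]; exact add_nonneg (hH _) (hL _)
  -- remove the factor
  obtain ⟨j, hj, hW⟩ : ∃ j, j < c + 2 ∧ q j * q (j + 1) ≤ ∑ i ∈ range (c + 2), L i * H i := by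
    rcases (hL 0).eq_or_lt with h | h
    · refine ⟨0, by omega, ?_⟩
      rw [hq0, ← h, zero_mul]
      exact Finset.sum_nonneg (fun i _ => mul_nonneg (hL _) (hH _))
    · exact ⟨j, hj, le_of_mul_le_mul_left hj' h⟩
  have hsq : ∑ i ∈ range (c + 3), q i = k * (c + 1) + t := by
    rw [Finset.sum_range_succ', hq0, ← hsum]
    simp only [hqs]
    rw [Finset.sum_add_distrib, Finset.sum_add_distrib]
    have h2 := Finset.sum_range_succ' L (c + 2)
    have h3 := Finset.sum_range_succ L (c + 2)
    rw [hc] at h3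
    linarith
  have hB := lemmaB c q k t ht hsq (by rw [hq0]; exact h0)
    (by rw [hqs, hc]; simpa using h1) j hj
  have hid : ∑ i ∈ range (c + 3), q i * (q i - 1) + 2 * ∑ i ∈ range (c + 2), L i * H i =
      ∑ i ∈ range (c + 2), (L i + H i) * (L i + H i - 1) +
        2 * ∑ i ∈ range (c + 2), H i * L (i + 1) := by
    rw [Finset.sum_range_succ', hq0]
    simp only [hqs]
    have h2 := Finset.sum_range_succ' (fun i => L i * (L i - 1)) (c + 2)
    have h3 := Finset.sum_range_succ (fun i => L i * (L i - 1)) (c + 2)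
    rw [hc] at h3
    have h4 : ∑ i ∈ range (c + 2), (H i + L (i + 1)) * (H i + L (i + 1) - 1) =
        ∑ i ∈ range (c + 2), H i * (H i - 1) + ∑ i ∈ range (c + 2), L (i + 1) * (L (i + 1) - 1) +
          2 * ∑ i ∈ range (c + 2), H i * L (i + 1) := by
      rw [Finset.mul_sum, ← Finset.sum_add_distrib, ← Finset.sum_add_distrib]
      apply Finset.sum_congr rfl
      intro i _
      ring
    have h5 : ∑ i ∈ range (c + 2), (L i + H i) * (L i + H i - 1) =
        ∑ i ∈ range (c + 2), H i * (H i - 1) + ∑ i ∈ range (c + 2), L i * (L i - 1) +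
          2 * ∑ i ∈ range (c + 2), L i * H i := by
      rw [Finset.mul_sum, ← Finset.sum_add_distrib, ← Finset.sum_add_distrib]
      apply Finset.sum_congr rfl
      intro i _
      ring
    rw [h4, h5]
    linarith
  linarith

/-! ## Degrees -/

open Classical in
theorem dcard {V : Type*} [Fintype V] (G : SimpleGraph V) (v : V) :
    (G.neighborSet v).ncard = (univ.filter (fun x => G.Adj v x)).card := by
  rw [← Set.ncard_coe_finset]
  congr 1
  ext x
  simp

open Classical in
theorem d_lt {V : Type*} [Fintype V] (G : SimpleGraph V) (v : V) :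
    (G.neighborSet v).ncard < Fintype.card V := by
  rw [dcard, ← Finset.card_univ]
  apply Finset.card_lt_card
  rw [Finset.ssubset_univ_iff]
  intro h
  have : v ∈ univ.filter (fun x => G.Adj v x) := by rw [h]; exact Finset.mem_univ v
  simp at this

open Classical in
/-- Not both many vertices of degree at most `u` and many vertices of degree at least
`n - 1 - w`. -/
theorem small_or_large {V : Type*} [Fintype V] (G : SimpleGraph V) (u w t : ℕ)
    (huw : u + w + 1 = t) (hn : t < Fintype.card V)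
    (ha : t ≤ (univ.filter (fun v => (G.neighborSet v).ncard ≤ u)).card)
    (hb : t ≤ (univ.filter (fun v => Fintype.card V ≤ (G.neighborSet v).ncard + 1 + w)).card) :
    False := by
  obtain ⟨A, hA⟩ : ∃ A, A = univ.filter (fun v => (G.neighborSet v).ncard ≤ u) := ⟨_, rfl⟩
  obtain ⟨B, hB⟩ : ∃ B, B = univ.filter
    (fun v => Fintype.card V ≤ (G.neighborSet v).ncard + 1 + w) := ⟨_, rfl⟩
  rw [← hA] at ha
  rw [← hB] at hb
  have hdc := Finset.sum_card_bipartiteAbove_eq_sum_card_bipartiteBelow (s := B) (t := A)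
    (fun v x => G.Adj v x)
  have h1 : ∀ v ∈ B, A.card ≤ (Finset.bipartiteAbove (fun v x => G.Adj v x) A v).card + w := by
    intro v hv
    rw [hB, Finset.mem_filter] at hv
    have hvA : v ∉ A := by
      rw [hA, Finset.mem_filter]
      rintro ⟨-, h⟩
      omega
    have h2 : (Finset.bipartiteAbove (fun v x => G.Adj v x) A v).card +
        (A.filter (fun x => ¬ G.Adj v x)).card = A.card := by
      unfold Finset.bipartiteAbove
      exact Finset.card_filter_add_card_filter_not (fun x => G.Adj v x)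
    have h3 : (A.filter (fun x => ¬ G.Adj v x)).card + (G.neighborSet v).ncard + 1 ≤
        Fintype.card V := by
      rw [dcard]
      have h4 : Disjoint (A.filter (fun x => ¬ G.Adj v x)) (univ.filter (fun x => G.Adj v x)) := by
        rw [Finset.disjoint_left]
        intro x hx hx'
        rw [Finset.mem_filter] at hx hx'
        exact hx.2 hx'.2
      rw [← Finset.card_union_of_disjoint h4]
      have h5 : v ∉ A.filter (fun x => ¬ G.Adj v x) ∪ univ.filter (fun x => G.Adj v x) := by
        rw [Finset.mem_union, Finset.mem_filter, Finset.mem_filter]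
        rintro (⟨h, -⟩ | ⟨-, h⟩)
        · exact hvA h
        · exact G.loopless.irrefl v h
      rw [← Finset.card_insert_of_notMem h5, ← Finset.card_univ]
      exact Finset.card_le_card (Finset.subset_univ _)
    omega
  have h2 : ∀ x ∈ A, (Finset.bipartiteBelow (fun v x => G.Adj v x) B x).card ≤ u := by
    intro x hx
    rw [hA, Finset.mem_filter] at hx
    refine le_trans ?_ hx.2
    rw [dcard]
    apply Finset.card_le_card
    intro y hy
    rw [Finset.mem_bipartiteBelow] at hy
    rw [Finset.mem_filter]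
    exact ⟨Finset.mem_univ _, hy.2.symm⟩
  have h3 : B.card * A.card ≤ ∑ v ∈ B, ((Finset.bipartiteAbove (fun v x => G.Adj v x) A v).card
      + w) := by
    rw [← smul_eq_mul, ← Finset.sum_const]
    exact Finset.sum_le_sum h1
  rw [Finset.sum_add_distrib, Finset.sum_const, smul_eq_mul, hdc] at h3
  have h4 : ∑ x ∈ A, (Finset.bipartiteBelow (fun v x => G.Adj v x) B x).card ≤ A.card * u := by
    rw [← smul_eq_mul, ← Finset.sum_const]
    exact Finset.sum_le_sum h2
  have h5 : B.card * A.card ≤ A.card * u + B.card * w := h3.trans (Nat.add_le_add_right h4 _)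
  rcases le_total A.card B.card with h | h
  · have h6 : A.card * u ≤ B.card * u := Nat.mul_le_mul_right _ h
    have h7 : B.card * t ≤ B.card * A.card := Nat.mul_le_mul_left _ ha
    rw [← huw] at h7
    have : 0 < B.card := by omega
    nlinarith
  · have h6 : B.card * w ≤ A.card * w := Nat.mul_le_mul_right _ h
    have h7 : A.card * t ≤ A.card * B.card := Nat.mul_le_mul_left _ hb
    rw [← huw] at h7
    have : 0 < A.card := by omega
    nlinarith

open Classical in
/-- A good threshold. -/
theorem exists_threshold {V : Type*} [Fintype V] (G : SimpleGraph V) (t : ℕ) (ht : 1 ≤ t)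
    (hn : t < Fintype.card V) : ∃ σ ≤ t,
    (univ.filter (fun v => (G.neighborSet v).ncard < σ)).card ≤ t - 1 ∧
    (univ.filter (fun v => Fintype.card V + σ ≤ (G.neighborSet v).ncard + t)).card ≤ t - 1 := by
  -- the largest σ with the first property
  obtain ⟨σ, hσ⟩ : ∃ σ, σ = Nat.findGreatest (fun σ =>
    (univ.filter (fun v => (G.neighborSet v).ncard < σ)).card ≤ t - 1) t := ⟨_, rfl⟩
  have h1 : (univ.filter (fun v => (G.neighborSet v).ncard < σ)).card ≤ t - 1 := by
    rw [hσ]
    exact Nat.findGreatest_spec (P := fun σ =>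
      (univ.filter (fun v => (G.neighborSet v).ncard < σ)).card ≤ t - 1) (m := 0) (Nat.zero_le _)
      (by simp)
  have h2 : σ ≤ t := by rw [hσ]; exact Nat.findGreatest_le _
  refine ⟨σ, h2, h1, ?_⟩
  rcases h2.eq_or_lt with h3 | h3
  · have h4 : univ.filter (fun v => Fintype.card V + σ ≤ (G.neighborSet v).ncard + t) = ∅ := by
      rw [Finset.filter_eq_empty_iff]
      intro v _
      have := d_lt G v
      omega
    rw [h4]
    simp
  · have h4 : ¬ ((univ.filter (fun v => (G.neighborSet v).ncard < σ + 1)).card ≤ t - 1) :=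
      Nat.findGreatest_is_greatest (P := fun σ =>
        (univ.filter (fun v => (G.neighborSet v).ncard < σ)).card ≤ t - 1)
        (by rw [← hσ]; omega) (by omega)
    by_contra h5
    apply small_or_large G σ (t - 1 - σ) t (by omega) hn
    · have h6 : (univ.filter (fun v => (G.neighborSet v).ncard < σ + 1)) =
          univ.filter (fun v => (G.neighborSet v).ncard ≤ σ) := by
        apply Finset.filter_congr
        intro v _
        omega
      rw [← h6]
      omega
    · have h6 : (univ.filter (fun v => Fintype.card V + σ ≤ (G.neighborSet v).ncard + t)) =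
          univ.filter (fun v => Fintype.card V ≤ (G.neighborSet v).ncard + 1 + (t - 1 - σ)) := by
        apply Finset.filter_congr
        intro v _
        omega
      rw [← h6]
      omega

/-! ## Counting close pairs -/

open Classical in
theorem count_pairs {V : Type*} [Fintype V] (G : SimpleGraph V) (k : ℕ) (hk : 1 ≤ k) (σ C : ℕ)
    (hσ : σ ≤ k) (Ls Hs : ℕ → Finset V)
    (hLs : ∀ j, Ls j = univ.filter (fun v => (G.neighborSet v).ncard / k = j ∧
      (G.neighborSet v).ncard % k < σ))
    (hHs : ∀ j, Hs j = univ.filter (fun v => (G.neighborSet v).ncard / k = j ∧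
      σ ≤ (G.neighborSet v).ncard % k)) :
    ∑ j ∈ range C, (((Ls j).card : ℤ) + (Hs j).card) * (((Ls j).card : ℤ) + (Hs j).card - 1) +
      2 * ∑ j ∈ range C, ((Hs j).card : ℤ) * (Ls (j + 1)).card ≤ 2 * (closePairs G k : ℤ) := by
  have hLH : ∀ i j, Disjoint (Ls i) (Hs j) := by
    intro i j
    rw [Finset.disjoint_left]
    intro x hx hx'
    rw [hLs, Finset.mem_filter] at hx
    rw [hHs, Finset.mem_filter] at hx'
    omega
  have hmem : ∀ j x, x ∈ Ls j ∪ Hs j ↔ (G.neighborSet x).ncard / k = j := by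
    intro j x
    rw [Finset.mem_union, hLs, hHs, Finset.mem_filter, Finset.mem_filter]
    constructor
    · rintro (⟨-, h, -⟩ | ⟨-, h, -⟩) <;> exact h
    · intro h
      rcases Nat.lt_or_ge ((G.neighborSet x).ncard % k) σ with h1 | h1
      · exact Or.inl ⟨Finset.mem_univ _, h, h1⟩
      · exact Or.inr ⟨Finset.mem_univ _, h, h1⟩
  have hdm : ∀ x : V, (G.neighborSet x).ncard = k * ((G.neighborSet x).ncard / k) +
      (G.neighborSet x).ncard % k := fun x => (Nat.div_add_mod _ _).symm
  have hml : ∀ x : V, (G.neighborSet x).ncard % k < k := fun x => Nat.mod_lt _ (by omega)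
  -- the set of ordered close pairs
  obtain ⟨P, hP⟩ : ∃ P : Finset (V × V), P = univ.filter
    (fun z => (closeGraph G k).Adj z.1 z.2) := ⟨_, rfl⟩
  have hPcard : P.card = 2 * closePairs G k := by
    have h1 := (closeGraph G k).sum_degrees_eq_twice_card_edges
    have h2 : closePairs G k = (closeGraph G k).edgeFinset.card := by
      unfold closePairs
      rw [← SimpleGraph.coe_edgeFinset, Set.ncard_coe_finset]
    rw [h2, ← h1, hP, ← Finset.univ_product_univ, Finset.card_filter, Finset.sum_product]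
    apply Finset.sum_congr rfl
    intro x _
    rw [← SimpleGraph.card_neighborFinset_eq_degree, SimpleGraph.neighborFinset_eq_filter,
      Finset.card_filter]
  obtain ⟨U1, hU1⟩ : ∃ U1 : Finset (V × V), U1 = (range C).biUnion
    (fun j => (Ls j ∪ Hs j).offDiag) := ⟨_, rfl⟩
  obtain ⟨U2, hU2⟩ : ∃ U2 : Finset (V × V), U2 = (range C).biUnion
    (fun j => Hs j ×ˢ Ls (j + 1)) := ⟨_, rfl⟩
  obtain ⟨U3, hU3⟩ : ∃ U3 : Finset (V × V), U3 = (range C).biUnion
    (fun j => Ls (j + 1) ×ˢ Hs j) := ⟨_, rfl⟩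
  have mU1 : ∀ z ∈ U1, z.1 ≠ z.2 ∧ (G.neighborSet z.1).ncard / k =
      (G.neighborSet z.2).ncard / k := by
    intro z hz
    rw [hU1, Finset.mem_biUnion] at hz
    obtain ⟨j, -, hz⟩ := hz
    rw [Finset.mem_offDiag, hmem, hmem] at hz
    exact ⟨hz.2.2, hz.1.trans hz.2.1.symm⟩
  have mU2 : ∀ z ∈ U2, (G.neighborSet z.2).ncard / k = (G.neighborSet z.1).ncard / k + 1 ∧
      (G.neighborSet z.2).ncard % k < σ ∧ σ ≤ (G.neighborSet z.1).ncard % k := by
    intro z hz
    rw [hU2, Finset.mem_biUnion] at hz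
    obtain ⟨j, -, hz⟩ := hz
    rw [Finset.mem_product, hLs, hHs, Finset.mem_filter, Finset.mem_filter] at hz
    exact ⟨by rw [hz.1.2.1, hz.2.2.1], hz.2.2.2, hz.1.2.2⟩
  have mU3 : ∀ z ∈ U3, (G.neighborSet z.1).ncard / k = (G.neighborSet z.2).ncard / k + 1 ∧
      (G.neighborSet z.1).ncard % k < σ ∧ σ ≤ (G.neighborSet z.2).ncard % k := by
    intro z hz
    rw [hU3, Finset.mem_biUnion] at hz
    obtain ⟨j, -, hz⟩ := hz
    rw [Finset.mem_product, hLs, hHs, Finset.mem_filter, Finset.mem_filter] at hz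
    exact ⟨by rw [hz.1.2.1, hz.2.2.1], hz.1.2.2, hz.2.2.2⟩
  have hsub : (U1 ∪ U2) ∪ U3 ⊆ P := by
    intro z hz
    rw [hP, Finset.mem_filter]
    refine ⟨Finset.mem_univ _, ?_⟩
    have hx := hdm z.1
    have hy := hdm z.2
    have hx' := hml z.1
    have hy' := hml z.2
    rw [Finset.mem_union, Finset.mem_union] at hz
    rcases hz with (hz | hz) | hz
    · obtain ⟨h1, h2⟩ := mU1 z hz
      refine ⟨h1, ?_⟩
      rw [h2] at hx
      rw [abs_lt]
      constructor <;> push_cast <;> omega
    · obtain ⟨h1, h2, h3⟩ := mU2 z hz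
      refine ⟨fun h => by rw [h] at h1; omega, ?_⟩
      rw [h1, Nat.mul_add, mul_one] at hy
      rw [abs_lt]
      constructor <;> push_cast <;> omega
    · obtain ⟨h1, h2, h3⟩ := mU3 z hz
      refine ⟨fun h => by rw [h] at h1; omega, ?_⟩
      rw [h1, Nat.mul_add, mul_one] at hx
      rw [abs_lt]
      constructor <;> push_cast <;> omega
  have hd12 : Disjoint U1 U2 := by
    rw [Finset.disjoint_left]
    intro z h1 h2
    have := mU1 z h1
    have := mU2 z h2
    omega
  have hd3 : Disjoint (U1 ∪ U2) U3 := by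
    rw [Finset.disjoint_left]
    intro z h1 h2
    have h3 := mU3 z h2
    rw [Finset.mem_union] at h1
    rcases h1 with h1 | h1
    · have := mU1 z h1
      omega
    · have := mU2 z h1
      omega
  have c1 : U1.card = ∑ j ∈ range C, ((Ls j).card + (Hs j).card) *
      ((Ls j).card + (Hs j).card) - ∑ j ∈ range C, ((Ls j).card + (Hs j).card) := by
    rw [hU1, Finset.card_biUnion]
    · rw [← Finset.sum_tsub_distrib]
      · apply Finset.sum_congr rfl
        intro j _
        rw [Finset.offDiag_card, Finset.card_union_of_disjoint (hLH j j)]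
      · intro j _
        exact Nat.le_mul_self _
    · intro i _ j _ hij
      rw [Function.onFun, Finset.disjoint_left]
      intro z h1 h2
      rw [Finset.mem_offDiag, hmem, hmem] at h1 h2
      exact hij (h1.1.symm.trans h2.1)
  have c2 : U2.card = ∑ j ∈ range C, (Hs j).card * (Ls (j + 1)).card := by
    rw [hU2, Finset.card_biUnion]
    · apply Finset.sum_congr rfl
      intro j _
      rw [Finset.card_product]
    · intro i _ j _ hij
      rw [Function.onFun, Finset.disjoint_left]
      intro z h1 h2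
      rw [Finset.mem_product, hHs, Finset.mem_filter] at h1 h2
      exact hij (h1.1.2.1.symm.trans h2.1.2.1)
  have c3 : U3.card = ∑ j ∈ range C, (Hs j).card * (Ls (j + 1)).card := by
    rw [hU3, Finset.card_biUnion]
    · apply Finset.sum_congr rfl
      intro j _
      rw [Finset.card_product, mul_comm]
    · intro i _ j _ hij
      rw [Function.onFun, Finset.disjoint_left]
      intro z h1 h2
      rw [Finset.mem_product, hHs, Finset.mem_filter] at h1 h2
      exact hij (h1.2.2.1.symm.trans h2.2.2.1)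
  have hle := Finset.card_le_card hsub
  rw [Finset.card_union_of_disjoint hd3, Finset.card_union_of_disjoint hd12, hPcard, c2, c3] at hle
  have c1' : (U1.card : ℤ) = ∑ j ∈ range C, (((Ls j).card : ℤ) + (Hs j).card) *
      (((Ls j).card : ℤ) + (Hs j).card - 1) := by
    rw [c1, Nat.cast_sub]
    · push_cast
      rw [← Finset.sum_sub_distrib]
      apply Finset.sum_congr rfl
      intro j _
      ring
    · exact Finset.sum_le_sum (fun j _ => Nat.le_mul_self _)
  have hle' : (U1.card : ℤ) + ∑ j ∈ range C, ((Hs j).card : ℤ) * (Ls (j + 1)).card +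
      ∑ j ∈ range C, ((Hs j).card : ℤ) * (Ls (j + 1)).card ≤ 2 * (closePairs G k : ℤ) := by
    exact_mod_cast hle
  rw [c1'] at hle'
  linarith

theorem cc_spec (n k : ℕ) (hk : 1 ≤ k) (hn : k < n) : 2 ≤ cc n k ∧ n ≤ k * cc n k ∧
    k * (cc n k - 1) + 1 ≤ n := by
  have h1 : k * cc n k ≤ n + k - 1 := Nat.mul_div_le _ _
  have h2 : n + k - 1 < k * cc n k + k := by
    have := Nat.lt_mul_div_succ (n + k - 1) (show 0 < k by omega)
    rw [Nat.mul_add, mul_one] at this
    exact this
  have h3 : 2 ≤ cc n k := by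
    by_contra h
    have h4 : cc n k ≤ 1 := by omega
    have h5 : k * cc n k ≤ k * 1 := Nat.mul_le_mul_left _ h4
    omega
  refine ⟨h3, by omega, ?_⟩
  have h6 : k * (cc n k - 1) = k * cc n k - k := by rw [Nat.mul_sub, mul_one]
  rw [h6]
  have h7 : k * 2 ≤ k * cc n k := Nat.mul_le_mul_left _ h3
  omega

theorem two_choose (m : ℕ) : 2 * (Nat.choose m 2 : ℤ) = m * (m - 1) := by
  rw [Nat.choose_two_right]
  have h1 : 2 * (m * (m - 1) / 2) = m * (m - 1) := by
    rw [mul_comm]
    exact Nat.div_mul_cancel (Nat.even_mul_pred_self m).two_dvd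
  have h2 : 2 * ((m * (m - 1) / 2 : ℕ) : ℤ) = ((m * (m - 1) : ℕ) : ℤ) := by exact_mod_cast h1
  rw [h2]
  cases m with
  | zero => simp
  | succ m => push_cast; simp

/-- **Main result.** Every graph with `n > k ≥ 1` vertices has at least `f₀(n, k)` close pairs. -/
theorem result (n k : ℕ) (hk : 1 ≤ k) (hn : k < n) (G : SimpleGraph (Fin n)) :
    f0 n k ≤ closePairs G k := by
  classical
  obtain ⟨h2, h3, h4⟩ := cc_spec n k hk hn
  obtain ⟨c, hc⟩ : ∃ c, cc n k = c + 2 := ⟨cc n k - 2, by omega⟩
  obtain ⟨t, ht⟩ : ∃ t, t = tt n k := ⟨_, rfl⟩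
  have htn : n = k * (c + 1) + t := by
    rw [ht, tt, hc]
    rw [hc] at h4
    simp only [show c + 2 - 1 = c + 1 by omega] at h4 ⊢
    omega
  have ht1 : 1 ≤ t := by
    rw [hc] at h4
    simp only [show c + 2 - 1 = c + 1 by omega] at h4
    omega
  have ht2 : t ≤ k := by
    rw [hc, show k * (c + 2) = k * (c + 1) + k by ring] at h3
    omega
  have hcard : Fintype.card (Fin n) = n := Fintype.card_fin n
  obtain ⟨σ, hσ, hs1, hs2⟩ := exists_threshold G t ht1 (by omega)
  rw [hcard] at hs2
  obtain ⟨Ls, hLs⟩ : ∃ Ls : ℕ → Finset (Fin n), ∀ j, Ls j = univ.filter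
    (fun v => (G.neighborSet v).ncard / k = j ∧ (G.neighborSet v).ncard % k < σ) :=
    ⟨fun j => _, fun j => rfl⟩
  obtain ⟨Hs, hHs⟩ : ∃ Hs : ℕ → Finset (Fin n), ∀ j, Hs j = univ.filter
    (fun v => (G.neighborSet v).ncard / k = j ∧ σ ≤ (G.neighborSet v).ncard % k) :=
    ⟨fun j => _, fun j => rfl⟩
  have hcount := count_pairs G k hk σ (c + 2) (by omega) Ls Hs hLs hHs
  have hdl : ∀ v : Fin n, (G.neighborSet v).ncard < n := by
    intro v
    have := d_lt G v
    rwa [hcard] at this
  have hLtop : (Ls (c + 2)).card = 0 := by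
    rw [Finset.card_eq_zero, hLs, Finset.filter_eq_empty_iff]
    rintro v - ⟨h, -⟩
    have h5 := Nat.mul_div_le (G.neighborSet v).ncard k
    rw [h, show k * (c + 2) = k * (c + 1) + k by ring] at h5
    have := hdl v
    omega
  have hsum : ∑ i ∈ range (c + 2), ((Ls i).card + (Hs i).card) = n := by
    have h5 : (univ : Finset (Fin n)).card = ∑ i ∈ range (c + 2),
        (univ.filter (fun v : Fin n => (G.neighborSet v).ncard / k = i)).card := by
      apply Finset.card_eq_sum_card_fiberwise
      intro v _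
      rw [Finset.coe_range, Set.mem_Iio, Nat.div_lt_iff_lt_mul (by omega)]
      have := hdl v
      have h6 : (c + 2) * k = k * (c + 1) + k := by ring
      omega
    rw [Finset.card_univ, hcard] at h5
    refine Eq.trans ?_ h5.symm
    apply Finset.sum_congr rfl
    intro i _
    rw [hLs, hHs, ← Finset.card_union_of_disjoint]
    · congr 1
      ext v
      simp only [Finset.mem_union, Finset.mem_filter, Finset.mem_univ, true_and]
      constructor
      · rintro (⟨h, -⟩ | ⟨h, -⟩) <;> exact h
      · intro h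
        rcases Nat.lt_or_ge ((G.neighborSet v).ncard % k) σ with h1 | h1
        · exact Or.inl ⟨h, h1⟩
        · exact Or.inr ⟨h, h1⟩
    · rw [Finset.disjoint_left]
      intro x hx hx'
      rw [Finset.mem_filter] at hx hx'
      omega
  have hL0 : (Ls 0).card ≤ t - 1 := by
    refine le_trans (Finset.card_le_card ?_) hs1
    intro v hv
    rw [hLs, Finset.mem_filter] at hv
    rw [Finset.mem_filter]
    refine ⟨Finset.mem_univ _, ?_⟩
    have := Nat.div_add_mod (G.neighborSet v).ncard k
    rw [hv.2.1] at this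
    omega
  have hHc : (Hs (c + 1)).card ≤ t - 1 := by
    refine le_trans (Finset.card_le_card ?_) hs2
    intro v hv
    rw [hHs, Finset.mem_filter] at hv
    rw [Finset.mem_filter]
    refine ⟨Finset.mem_univ _, ?_⟩
    have := Nat.div_add_mod (G.neighborSet v).ncard k
    rw [hv.2.1] at this
    omega
  have hnum := numeric c (fun i => ((Ls i).card : ℤ)) (fun i => ((Hs i).card : ℤ)) k t
    (fun i => Nat.cast_nonneg _) (fun i => Nat.cast_nonneg _) (by exact_mod_cast ht2)
    (by simp only [hLtop, Nat.cast_zero])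
    (by
      have h5 : ((∑ i ∈ range (c + 2), ((Ls i).card + (Hs i).card) : ℕ) : ℤ) =
        ((k * (c + 1) + t : ℕ) : ℤ) := by rw [hsum, ← htn]
      push_cast at h5
      exact h5)
    (by
      have h5 : ((Ls 0).card : ℤ) ≤ ((t - 1 : ℕ) : ℤ) := by exact_mod_cast hL0
      rw [Nat.cast_sub ht1] at h5
      simpa using h5)
    (by
      have h5 : ((Hs (c + 1)).card : ℤ) ≤ ((t - 1 : ℕ) : ℤ) := by exact_mod_cast hHc
      rw [Nat.cast_sub ht1] at h5
      simpa using h5)
  have hfin := hnum.trans hcount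
  have hf : 2 * (f0 n k : ℤ) = (c + 1) * (k * (k - 1)) + 2 * k + (t - 1) * (t - 2) := by
    rw [f0, hc, ← ht]
    simp only [show c + 2 - 2 = c by omega]
    push_cast
    have e1 := two_choose k
    have e2 := two_choose (k + 1)
    have e3 := two_choose (t - 1)
    rw [Nat.cast_sub ht1] at e3
    push_cast at e2 e3
    have : 2 * ((c : ℤ) * (Nat.choose k 2 : ℤ) + (Nat.choose (k + 1) 2 : ℤ) +
        (Nat.choose (t - 1) 2 : ℤ)) = c * (2 * (Nat.choose k 2 : ℤ)) +
          2 * (Nat.choose (k + 1) 2 : ℤ) + 2 * (Nat.choose (t - 1) 2 : ℤ) := by ring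
    rw [this, e1, e2, e3]
    ring
  rw [← hf] at hfin
  have : (f0 n k : ℤ) ≤ (closePairs G k : ℤ) := by linarith
  exact_mod_cast this

end Pool.Agent.Results.MP_3eb7f1_co.DegreeClosePairs
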